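import Pool.Agent.W8.KU.Stm

open scoped Topology ContDiff
open Metric

namespace Pool.Agent.W490.KU

open Pool.Agent.W8.KU

theorem plat (hP : PlS) {z : E3} {r : ℝ} {x : E3} (hr : 0 < r) (hx : dist x z = r)
    {ci co : Option (Fin 2)} (hne : ci ≠ co)
    (hU : ∀ᶠ y in 𝓝 x, (y ∈ cell Om ci ↔ dist y z < r) ∧ (y ∈ cell Om co ↔ r < dist y z)) :
    PlateauAt Om x := by
  obtain ⟨ν, ψ, hν, h0, hs, hd, hev⟩ := hP z r x hr hx
  refine ⟨2, ![-((1 / 2 : ℝ) • ν), (1 / 2 : ℝ) • ν], ![ci, co], ψ, le_rfl, by norm_num, ?_, ?_,
    h0, hs, hd, ?_⟩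
  · have e : dist (-((1 / 2 : ℝ) • ν)) ((1 / 2 : ℝ) • ν) = 1 := by
      rw [dist_eq_norm]
      have e1 : -((1 / 2 : ℝ) • ν) - (1 / 2 : ℝ) • ν = -ν := by
        rw [← neg_add', ← add_smul]
        norm_num
      rw [e1, norm_neg, hν]
    intro a b hab
    fin_cases a <;> fin_cases b
    · exact absurd rfl hab
    · exact e
    · exact (dist_comm _ _).trans e
    · exact absurd rfl hab
  · intro a b hab
    fin_cases a <;> fin_cases b
    · rfl
    · exact absurd hab hne
    · exact absurd hab.symm hne
    · rfl
  · have hc : Filter.Tendsto ψ (𝓝 0) (𝓝 x) := by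
      have := hd.continuousAt
      rw [ContinuousAt, h0] at this
      exact this
    filter_upwards [hev, hc.eventually hU] with y hy hy'
    have i1 : inner ℝ (-((1 / 2 : ℝ) • ν)) y = -(1 / 2 * inner ℝ ν y) := by
      rw [inner_neg_left, real_inner_smul_left]
    have i2 : inner ℝ ((1 / 2 : ℝ) • ν) y = 1 / 2 * inner ℝ ν y := by
      rw [real_inner_smul_left]
    intro a
    fin_cases a
    · show ψ y ∈ cell Om ci ↔ _
      rw [hy'.1, hy.1]
      constructor
      · intro h b hb
        fin_cases b
        · exact absurd rfl hb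
        · show inner ℝ ((1 / 2 : ℝ) • ν) y < inner ℝ (-((1 / 2 : ℝ) • ν)) y
          rw [i1, i2]
          linarith
      · intro h
        have h1 := h 1 (by decide)
        change inner ℝ ((1 / 2 : ℝ) • ν) y < inner ℝ (-((1 / 2 : ℝ) • ν)) y at h1
        rw [i1, i2] at h1
        linarith
    · show ψ y ∈ cell Om co ↔ _
      rw [hy'.2, hy.2]
      constructor
      · intro h b hb
        fin_cases b
        · show inner ℝ (-((1 / 2 : ℝ) • ν)) y < inner ℝ ((1 / 2 : ℝ) • ν) y
          rw [i1, i2]
          linarith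
        · exact absurd rfl hb
      · intro h
        have h1 := h 0 (by decide)
        change inner ℝ (-((1 / 2 : ℝ) • ν)) y < inner ℝ ((1 / 2 : ℝ) • ν) y at h1
        rw [i1, i2] at h1
        linarith

theorem Pla_proof : Pla := by
  intro hP hF hI x hx
  rw [hI.2.2.2.2.2.2] at hx
  have hP0 : dist P0 (0 : E3) = 20 := by
    rw [dist_zero_right]
    unfold P0
    rw [PiLp.norm_single]
    norm_num
  have m0 : ∀ y, y ∈ cell Om (some 0) ↔ dist y P0 < 2 ∨ dist y 0 < 3 := fun y => Iff.rfl
  have m1 : ∀ y, y ∈ cell Om (some 1) ↔ dist y 0 < 6 ∧ ¬ dist y 0 ≤ 3 := fun y => Iff.rfl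
  have mn : ∀ y, y ∈ cell Om none ↔ ¬ (dist y P0 ≤ 2 ∨ dist y 0 ≤ 6) := by
    intro y
    rw [hF.1]
    exact Iff.rfl
  have hb : ∀ᶠ y in 𝓝 x, dist y x < 1 := ball_mem_nhds x one_pos
  rcases hx with hx | hx | hx
  · have hx' : dist x P0 = 2 := hx
    refine plat hP (z := P0) (r := 2) (ci := some 0) (co := none) (by norm_num) hx' (by simp) ?_
    filter_upwards [hb] with y hy
    have t1 : dist y P0 ≤ dist y x + dist x P0 := dist_triangle _ _ _
    have t2 : dist P0 (0 : E3) ≤ dist P0 y + dist y 0 := dist_triangle _ _ _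
    rw [dist_comm P0 y] at t2
    rw [m0, mn]
    constructor
    · constructor
      · rintro (h | h)
        · exact h
        · linarith
      · exact Or.inl
    · constructor
      · intro h
        push Not at h
        exact h.1
      · intro h
        push Not
        exact ⟨h, by linarith⟩
  · have hx' : dist x 0 = 3 := hx
    refine plat hP (z := 0) (r := 3) (ci := some 0) (co := some 1) (by norm_num) hx'
      (by simp) ?_
    filter_upwards [hb] with y hy
    have t1 : dist y 0 ≤ dist y x + dist x 0 := dist_triangle _ _ _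
    have t2 : dist P0 (0 : E3) ≤ dist P0 y + dist y 0 := dist_triangle _ _ _
    rw [dist_comm P0 y] at t2
    rw [m0, m1]
    constructor
    · constructor
      · rintro (h | h)
        · linarith
        · exact h
      · exact Or.inr
    · constructor
      · intro h
        exact not_le.mp h.2
      · intro h
        exact ⟨by linarith, not_le.mpr h⟩
  · have hx' : dist x 0 = 6 := hx
    refine plat hP (z := 0) (r := 6) (ci := some 1) (co := none) (by norm_num) hx' (by simp) ?_
    filter_upwards [hb] with y hy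
    have t1 : dist y 0 ≤ dist y x + dist x 0 := dist_triangle _ _ _
    have t3 : dist x 0 ≤ dist x y + dist y 0 := dist_triangle _ _ _
    have t2 : dist P0 (0 : E3) ≤ dist P0 y + dist y 0 := dist_triangle _ _ _
    rw [dist_comm P0 y] at t2
    rw [dist_comm x y] at t3
    rw [m1, mn]
    constructor
    · constructor
      · exact fun h => h.1
      · intro h
        exact ⟨h, by push Not; linarith⟩
    · constructor
      · intro h
        push Not at h
        exact h.2
      · intro h
        push Not
        exact ⟨by linarith, h⟩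

end Pool.Agent.W490.KU
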